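import Pool.Agent.W792.WA.Stm

/-!
WA-SCL: Lipschitz bounds for the effective contraction.
-/

set_option autoImplicit false

namespace Pool.Agent.W991.WA.Scl

open MeasureTheory Pool.Agent.W792.WA

noncomputable section

lemma one (h1 : S_SC1) (ρ : Measure ℝ) [IsProbabilityMeasure ρ] (w : ℝ → ℂ) (σ : ℝ) (s : ℂ)
    (hw : Measurable w) (hσ : 0 < σ) (hσ1 : σ ≤ 1) (hw1 : ∀ᵐ a ∂ρ, ‖w a‖ ≤ 1) (hs : ‖s‖ ≤ 1)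
    (hws : ∀ᵐ a ∂ρ, ‖w a‖ * ‖s‖ ≤ 1 - σ) :
    1 + s * Bs ρ w s ≠ 0 ∧ ‖Us ρ w s‖ ≤ 1 ∧ ‖(1 + s * Bs ρ w s)⁻¹‖ ≤ 2 := by
  have key : 1 + s * Bs ρ w s ≠ 0 ∧ ‖Us ρ w s‖ ≤ 1 := by
    rcases lt_or_eq_of_le hs with h | h
    · have := h1 ρ w 1 s hw zero_le_one le_rfl hw1 hs (by rw [one_mul]; exact h)
      exact ⟨this.2.1, this.2.2.1⟩
    · have := h1 ρ w (1 - σ) s hw (by linarith) (by linarith) (by
        filter_upwards [hws] with a ha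
        rw [h, mul_one] at ha
        exact ha) hs (by rw [h]; linarith)
      exact ⟨this.2.1, this.2.2.1.trans (by linarith)⟩
  refine ⟨key.1, key.2, ?_⟩
  have hD : 0 < ‖1 + s * Bs ρ w s‖ := norm_pos_iff.2 key.1
  have hB : ‖Bs ρ w s‖ ≤ ‖1 + s * Bs ρ w s‖ := by
    have := key.2
    rw [Us, norm_div, div_le_one hD] at this
    exact this
  have h2 : 1 ≤ 2 * ‖1 + s * Bs ρ w s‖ := by
    have e1 : (1 : ℂ) = (1 + s * Bs ρ w s) - s * Bs ρ w s := by ring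
    have e2 : ‖(1 : ℂ)‖ ≤ ‖1 + s * Bs ρ w s‖ + ‖s * Bs ρ w s‖ := by
      calc ‖(1 : ℂ)‖ = ‖(1 + s * Bs ρ w s) - s * Bs ρ w s‖ := by rw [← e1]
        _ ≤ _ := norm_sub_le _ _
    rw [norm_one, norm_mul] at e2
    have e3 : ‖s‖ * ‖Bs ρ w s‖ ≤ 1 * ‖1 + s * Bs ρ w s‖ :=
      mul_le_mul hs hB (norm_nonneg _) zero_le_one
    linarith
  rw [norm_inv]
  rw [inv_le_comm₀ hD (by norm_num)]
  linarith

lemma beta_den (w s : ℂ) (σ : ℝ) (h : ‖w‖ * ‖s‖ ≤ 1 - σ) : σ ≤ ‖1 - w * s‖ := by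
  have := norm_sub_norm_le (1 : ℂ) (w * s)
  rw [norm_one, norm_mul] at this
  linarith

lemma integ (ρ : Measure ℝ) [IsProbabilityMeasure ρ] (w : ℝ → ℂ) (σ : ℝ) (s : ℂ)
    (hw : Measurable w) (hσ : 0 < σ) (hw1 : ∀ᵐ a ∂ρ, ‖w a‖ ≤ 1)
    (hws : ∀ᵐ a ∂ρ, ‖w a‖ * ‖s‖ ≤ 1 - σ) :
    Integrable (fun a => w a / (1 - w a * s)) ρ := by
  refine Integrable.of_bound
    (hw.div (measurable_const.sub (hw.mul_const s))).aestronglyMeasurable (1 / σ) ?_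
  filter_upwards [hw1, hws] with a h1 h2
  have h3 := beta_den (w a) s σ h2
  rw [norm_div]
  exact div_le_div₀ zero_le_one h1 hσ h3

theorem main (h1 : S_SC1) : S_SCL := by
  intro ρ _ w₁ w₂ σ e s₁ s₂ hw₁ hw₂ hσ hn₁ hn₂ hs₁ hs₂ hws₁ hws₂ he
  obtain ⟨a₀, ha₀, ha₁⟩ := (hws₁.and he).exists
  have hσ1 : σ ≤ 1 := by
    have : 0 ≤ ‖w₁ a₀‖ * ‖s₁‖ := by positivity
    linarith
  have he0 : 0 ≤ e := (norm_nonneg _).trans ha₁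
  obtain ⟨hD₁, hU₁, hI₁⟩ := one h1 ρ w₁ σ s₁ hw₁ hσ hσ1 hn₁ hs₁ hws₁
  obtain ⟨hD₂, hU₂, hI₂⟩ := one h1 ρ w₂ σ s₂ hw₂ hσ hσ1 hn₂ hs₂ hws₂
  have hB : ‖Bs ρ w₁ s₁ - Bs ρ w₂ s₂‖ ≤ (e + ‖s₁ - s₂‖) / σ ^ 2 := by
    unfold Bs
    rw [← integral_sub (integ ρ w₁ σ s₁ hw₁ hσ hn₁ hws₁) (integ ρ w₂ σ s₂ hw₂ hσ hn₂ hws₂)]
    refine (norm_integral_le_of_norm_le_const (C := (e + ‖s₁ - s₂‖) / σ ^ 2) ?_).trans ?_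
    · filter_upwards [hn₁, hn₂, hws₁, hws₂, he] with a g1 g2 g3 g4 g5
      have d1 := beta_den _ _ _ g3
      have d2 := beta_den _ _ _ g4
      have n1 : 1 - w₁ a * s₁ ≠ 0 := norm_pos_iff.1 (hσ.trans_le d1)
      have n2 : 1 - w₂ a * s₂ ≠ 0 := norm_pos_iff.1 (hσ.trans_le d2)
      have e1 : w₁ a / (1 - w₁ a * s₁) - w₂ a / (1 - w₂ a * s₂)
          = (w₁ a - w₂ a + w₁ a * w₂ a * (s₁ - s₂)) / ((1 - w₁ a * s₁) * (1 - w₂ a * s₂)) := by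
        rw [div_sub_div _ _ n1 n2]
        congr 1
        ring
      rw [e1, norm_div, norm_mul (1 - w₁ a * s₁)]
      refine div_le_div₀ (by positivity) ?_ (by positivity) (by nlinarith)
      refine (norm_add_le _ _).trans ?_
      rw [norm_mul, norm_mul]
      have : ‖w₁ a‖ * ‖w₂ a‖ * ‖s₁ - s₂‖ ≤ 1 * 1 * ‖s₁ - s₂‖ := by gcongr
      linarith
    · simp
  have hdiff : Us ρ w₁ s₁ - Us ρ w₂ s₂
      = (Bs ρ w₁ s₁ - Bs ρ w₂ s₂) * ((1 + s₁ * Bs ρ w₁ s₁)⁻¹ * (1 + s₂ * Bs ρ w₂ s₂)⁻¹)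
        + (s₂ - s₁) * (Us ρ w₁ s₁ * Us ρ w₂ s₂) := by
    unfold Us
    rw [← mul_inv, ← div_eq_mul_inv, div_mul_div_comm, mul_div_assoc', ← add_div,
      div_sub_div _ _ hD₁ hD₂]
    congr 1
    ring
  rw [hdiff]
  refine (norm_add_le _ _).trans ?_
  rw [norm_mul, norm_mul, norm_mul, norm_mul (Us ρ w₁ s₁)]
  have t1 : ‖Bs ρ w₁ s₁ - Bs ρ w₂ s₂‖ * (‖(1 + s₁ * Bs ρ w₁ s₁)⁻¹‖ * ‖(1 + s₂ * Bs ρ w₂ s₂)⁻¹‖)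
      ≤ (e + ‖s₁ - s₂‖) / σ ^ 2 * (2 * 2) := by gcongr
  have t2 : ‖s₂ - s₁‖ * (‖Us ρ w₁ s₁‖ * ‖Us ρ w₂ s₂‖) ≤ ‖s₁ - s₂‖ * (1 * 1) := by
    rw [norm_sub_rev s₂ s₁]
    gcongr
  have t3 : ‖s₁ - s₂‖ ≤ (e + ‖s₁ - s₂‖) / σ ^ 2 := by
    rw [le_div_iff₀ (by positivity)]
    have : σ ^ 2 ≤ 1 := by nlinarith
    have h0 := norm_nonneg (s₁ - s₂)
    nlinarith
  have t4 : (0 : ℝ) ≤ (e + ‖s₁ - s₂‖) / σ ^ 2 := by positivity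
  have t5 : 8 / σ ^ 2 * (e + ‖s₁ - s₂‖) = 8 * ((e + ‖s₁ - s₂‖) / σ ^ 2) := by ring
  rw [t5]
  linarith

end

end Pool.Agent.W991.WA.Scl
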